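import Mathlib

set_option autoImplicit false

/-!
# Bounded extensions of the associated functionals of a minimal sequence with dense sum

Take Hahn–Banach extensions `F n` of the associated functionals.  They tend to `0` pointwise on
`G = [x_n]`, so that by weak* compactness they come close, on each finite set of vectors, to
functionals vanishing on `G`.  Subtracting such functionals one makes `f n` vanish at the `k`-th
member of a family spanning `E` modulo `G`, for all `n` beyond some `n_k`.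
-/

namespace Pool.Agent.Results.MP_b3b95b_an.BoundedExtensionsDenseSum

open Filter Topology

section aux

variable {𝕜 : Type} [RCLike 𝕜] {E : Type} [NormedAddCommGroup E] [NormedSpace 𝕜 E]

/-- Weak* compactness: a bounded sequence of functionals tending to zero on `G` is eventually
close, on a finite set, to functionals of no larger norm which vanish on `G`. -/
theorem approx (G : Submodule 𝕜 E) (F : ℕ → StrongDual 𝕜 E) (C : ℝ) (hF : ∀ n, ‖F n‖ ≤ C)
    (hG : ∀ g ∈ G, Tendsto (fun n => F n g) atTop (𝓝 0)) (s : Finset E) (δ : ℝ) (hδ : 0 < δ) :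
    ∀ᶠ n in atTop, ∃ h : StrongDual 𝕜 E, (∀ g ∈ G, h g = 0) ∧ ‖h‖ ≤ C ∧
      ∀ z ∈ s, ‖F n z - h z‖ < δ := by
  by_contra hcon
  rw [not_eventually] at hcon
  have hne : (atTop ⊓ 𝓟 {n : ℕ | ¬ ∃ h : StrongDual 𝕜 E, (∀ g ∈ G, h g = 0) ∧ ‖h‖ ≤ C ∧
      ∀ z ∈ s, ‖F n z - h z‖ < δ}).NeBot := frequently_mem_iff_neBot.1 hcon
  set U : Ultrafilter ℕ := Ultrafilter.of (atTop ⊓ 𝓟 {n : ℕ | ¬ ∃ h : StrongDual 𝕜 E,
    (∀ g ∈ G, h g = 0) ∧ ‖h‖ ≤ C ∧ ∀ z ∈ s, ‖F n z - h z‖ < δ}) with hU
  have hUle : (U : Filter ℕ) ≤ atTop ⊓ 𝓟 {n : ℕ | ¬ ∃ h : StrongDual 𝕜 E,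
    (∀ g ∈ G, h g = 0) ∧ ‖h‖ ≤ C ∧ ∀ z ∈ s, ‖F n z - h z‖ < δ} := Ultrafilter.of_le _
  have hU1 : (U : Filter ℕ) ≤ atTop := hUle.trans inf_le_left
  have hU2 : ∀ᶠ n in (U : Filter ℕ), ¬ ∃ h : StrongDual 𝕜 E,
    (∀ g ∈ G, h g = 0) ∧ ‖h‖ ≤ C ∧ ∀ z ∈ s, ‖F n z - h z‖ < δ :=
    (hUle.trans inf_le_right) (mem_principal_self _)
  have hcomp := WeakDual.isCompact_closedBall (𝕜 := 𝕜) (E := E) 0 C
  have hmem : ∀ n, StrongDual.toWeakDual (F n) ∈
      (WeakDual.toStrongDual ⁻¹' Metric.closedBall (0 : StrongDual 𝕜 E) C) := by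
    intro n
    have h1 : F n ∈ Metric.closedBall (0 : StrongDual 𝕜 E) C := by
      rw [mem_closedBall_zero_iff]; exact hF n
    exact h1
  obtain ⟨h, hh, hlim⟩ := hcomp.ultrafilter_le_nhds
    (U.map fun n => StrongDual.toWeakDual (F n)) (by
      rw [le_principal_iff]
      exact Ultrafilter.mem_coe.2 (Ultrafilter.mem_map.2 (univ_mem' hmem)))
  have hlim' : Tendsto (fun n => StrongDual.toWeakDual (F n)) U (𝓝 h) := hlim
  have hev : ∀ z : E, Tendsto (fun n => F n z) U (𝓝 (h z)) := by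
    intro z
    exact ((WeakBilin.eval_continuous (topDualPairing 𝕜 E) z).tendsto h).comp hlim'
  have hnorm : ‖WeakDual.toStrongDual h‖ ≤ C := by
    have h1 : WeakDual.toStrongDual h ∈ Metric.closedBall (0 : StrongDual 𝕜 E) C := hh
    rwa [mem_closedBall_zero_iff] at h1
  have hfin : ∀ᶠ n in (U : Filter ℕ), ∀ z ∈ s, ‖F n z - h z‖ < δ := by
    rw [Filter.eventually_all_finset]
    intro z _
    have h1 := (hev z).sub_const (h z)
    rw [sub_self] at h1
    have h2 := h1.norm
    rw [norm_zero] at h2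
    exact h2.eventually_lt_const hδ
  obtain ⟨n, hn1, hn2⟩ := (hU2.and hfin).exists
  refine hn1 ⟨WeakDual.toStrongDual h, ?_, hnorm, hn2⟩
  intro g hg
  exact tendsto_nhds_unique (hev g) ((hG g hg).mono_left hU1)

/-- Vectors linearly independent modulo a closed subspace have biorthogonal functionals vanishing
on the subspace. -/
theorem exists_dual (G : Submodule 𝕜 E) (hG : IsClosed (G : Set E)) {ι : Type} (z : ι → E)
    (hz : LinearIndependent 𝕜 (fun i => G.mkQ (z i))) (s : Finset ι) [DecidableEq ι] :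
    ∃ w : ι → StrongDual 𝕜 E, (∀ i, ∀ g ∈ G, w i g = 0) ∧
      ∀ i ∈ s, ∀ j ∈ s, w i (z j) = if i = j then 1 else 0 := by
  have : IsClosed (G : Set E) := hG
  have hli : LinearIndependent 𝕜 (fun i : s => G.mkQ (z i)) :=
    hz.comp (fun i : s => (i : ι)) Subtype.val_injective
  let b := Module.Basis.span hli
  have hfd : FiniteDimensional 𝕜 (Submodule.span 𝕜 (Set.range fun i : s => G.mkQ (z i))) :=
    FiniteDimensional.span_of_finite 𝕜 (Set.finite_range _)
  have h1 : ∀ i : s, ∃ g : StrongDual 𝕜 (E ⧸ G),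
      ∀ v : Submodule.span 𝕜 (Set.range fun i : s => G.mkQ (z i)), g v = b.coord i v := by
    intro i
    obtain ⟨g, hg, _⟩ := exists_extension_norm_eq _ (LinearMap.toContinuousLinearMap (b.coord i))
    exact ⟨g, fun v => hg v⟩
  choose g hg using h1
  let q : E →L[𝕜] E ⧸ G := ⟨G.mkQ, continuous_quotient_mk'⟩
  refine ⟨fun i => if h : i ∈ s then (g ⟨i, h⟩).comp q else 0, ?_, ?_⟩
  · intro i v hv
    show (if h : i ∈ s then (g ⟨i, h⟩).comp q else 0 : StrongDual 𝕜 E) v = 0
    by_cases h : i ∈ s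
    · rw [dif_pos h]
      have h2 : q v = 0 := (Submodule.Quotient.mk_eq_zero G).2 hv
      rw [ContinuousLinearMap.comp_apply, h2, map_zero]
    · rw [dif_neg h]; rfl
  · intro i hi j hj
    have hdi : (if h : i ∈ s then (g ⟨i, h⟩).comp q else 0 : StrongDual 𝕜 E) =
        (g ⟨i, hi⟩).comp q := dif_pos hi
    show (if h : i ∈ s then (g ⟨i, h⟩).comp q else 0 : StrongDual 𝕜 E) (z j) = _
    rw [hdi, ContinuousLinearMap.comp_apply]
    have h3 : ((b ⟨j, hj⟩ : Submodule.span 𝕜 (Set.range fun i : s => G.mkQ (z i))) : E ⧸ G)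
        = q (z j) := by
      rw [Module.Basis.span_apply]
      rfl
    rw [← h3, hg, Module.Basis.coord_apply, Module.Basis.repr_self, Finsupp.single_apply]
    by_cases hij : i = j
    · subst hij; simp
    · rw [if_neg hij, if_neg]
      intro h
      exact hij (congrArg Subtype.val h).symm

/-- The combination of the two previous facts. -/
theorem exact_approx (G : Submodule 𝕜 E) (hGc : IsClosed (G : Set E)) (F : ℕ → StrongDual 𝕜 E)
    (C : ℝ) (hF : ∀ n, ‖F n‖ ≤ C) (hG : ∀ g ∈ G, Tendsto (fun n => F n g) atTop (𝓝 0))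
    {ι : Type} [DecidableEq ι] (z : ι → E) (hz : LinearIndependent 𝕜 (fun i => G.mkQ (z i)))
    (s : Finset ι) (ε : ℝ) (hε : 0 < ε) :
    ∀ᶠ n in atTop, ∃ h : StrongDual 𝕜 E, (∀ g ∈ G, h g = 0) ∧ ‖h‖ ≤ C + ε ∧
      ∀ i ∈ s, h (z i) = F n (z i) := by
  classical
  obtain ⟨w, hw1, hw2⟩ := exists_dual G hGc z hz s
  set B : ℝ := ∑ i ∈ s, ‖w i‖ with hB
  have hB0 : 0 ≤ B := Finset.sum_nonneg fun i _ => norm_nonneg _
  filter_upwards [approx G F C hF hG (s.image z) (ε / (B + 1)) (by positivity)] with n hn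
  obtain ⟨h, h1, h2, h3⟩ := hn
  refine ⟨h + ∑ i ∈ s, (F n (z i) - h (z i)) • w i, ?_, ?_, ?_⟩
  · intro g hg
    rw [add_apply, h1 g hg, sum_apply, zero_add]
    exact Finset.sum_eq_zero fun i _ => by
      rw [smul_apply, hw1 i g hg, smul_zero]
  · have h4 : ‖∑ i ∈ s, (F n (z i) - h (z i)) • w i‖ ≤ ε := by
      calc ‖∑ i ∈ s, (F n (z i) - h (z i)) • w i‖
          ≤ ∑ i ∈ s, ‖(F n (z i) - h (z i)) • w i‖ := norm_sum_le _ _
        _ ≤ ∑ i ∈ s, ε / (B + 1) * ‖w i‖ := by
            apply Finset.sum_le_sum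
            intro i hi
            rw [norm_smul]
            exact mul_le_mul_of_nonneg_right (h3 _ (Finset.mem_image_of_mem z hi)).le
              (norm_nonneg _)
        _ = ε / (B + 1) * B := by rw [← Finset.mul_sum]
        _ ≤ ε / (B + 1) * (B + 1) := by
            apply mul_le_mul_of_nonneg_left _ (by positivity)
            linarith
        _ = ε := by field_simp
    exact (norm_add_le _ _).trans (add_le_add h2 h4)
  · intro j hj
    rw [add_apply, sum_apply]
    have h5 : ∑ i ∈ s, ((F n (z i) - h (z i)) • w i) (z j) = F n (z j) - h (z j) := by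
      rw [Finset.sum_eq_single j]
      · rw [smul_apply, hw2 j hj j hj, if_pos rfl, smul_eq_mul, mul_one]
      · intro i hi hij
        rw [smul_apply, hw2 i hi j hj, if_neg hij, smul_zero]
      · intro h6
        exact absurd hj h6
    rw [h5]
    ring

end aux

theorem main {𝕜 : Type} [RCLike 𝕜] {E : Type} [NormedAddCommGroup E] [NormedSpace 𝕜 E]
    [TopologicalSpace.SeparableSpace E] (x : ℕ → E) (G : Submodule 𝕜 E)
    (hGdef : G = (Submodule.span 𝕜 (Set.range x)).topologicalClosure)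
    (φ : ℕ → StrongDual 𝕜 G)
    (hφ : ∀ (i j : ℕ) (v : G), (v : E) = x j → φ i v = if i = j then 1 else 0)
    (C : ℝ) (hC : ∀ n, ‖φ n‖ ≤ C) (ε : ℝ) (hε : 0 < ε) :
    ∃ f : ℕ → StrongDual 𝕜 E,
      (∀ (n : ℕ) (v : G), f n (v : E) = φ n v) ∧
      (∀ n, ‖f n‖ ≤ 2 * C + ε) ∧
      Dense {v : E | ∃ g ∈ G, ∃ y : E, (∀ n, f n y = 0) ∧ v = g + y} := by
  classical
  have hGc : IsClosed (G : Set E) := by
    rw [hGdef]; exact Submodule.isClosed_topologicalClosure _
  have hxG : ∀ n, x n ∈ G := fun n => by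
    rw [hGdef]; exact Submodule.le_topologicalClosure _ (Submodule.subset_span ⟨n, rfl⟩)
  -- Hahn-Banach extensions
  have h1 : ∀ n, ∃ F : StrongDual 𝕜 E, (∀ v : G, F v = φ n v) ∧ ‖F‖ ≤ C := by
    intro n
    obtain ⟨F, h2, h3⟩ := exists_extension_norm_eq G (φ n)
    exact ⟨F, h2, h3.le.trans (hC n)⟩
  choose F hF1 hF2 using h1
  have hFx : ∀ i j, F i (x j) = if i = j then 1 else 0 := by
    intro i j
    have := hF1 i ⟨x j, hxG j⟩
    rw [← hφ i j ⟨x j, hxG j⟩ rfl, ← this]
  -- they tend to zero on `G`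
  have hF0 : ∀ g ∈ G, Tendsto (fun n => F n g) atTop (𝓝 0) := by
    have hspan : ∀ g ∈ Submodule.span 𝕜 (Set.range x),
        Tendsto (fun n => F n g) atTop (𝓝 0) := by
      intro g hg
      induction hg using Submodule.span_induction with
      | mem v hv =>
        obtain ⟨m, rfl⟩ := hv
        apply tendsto_const_nhds.congr'
        filter_upwards [eventually_gt_atTop m] with n hn
        rw [hFx, if_neg (by omega)]
      | zero => simp
      | add a b _ _ ha hb => simpa using ha.add hb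
      | smul c a _ ha => simpa using ha.const_mul c
    intro g hg
    have hC0 : 0 ≤ C := (norm_nonneg _).trans (hC 0)
    rw [Metric.tendsto_atTop]
    intro δ hδ
    have hg' : g ∈ closure (Submodule.span 𝕜 (Set.range x) : Set E) := by
      rw [hGdef] at hg; exact hg
    rw [Metric.mem_closure_iff] at hg'
    obtain ⟨u, hu, hgu⟩ := hg' (δ / 2 / (C + 1)) (by positivity)
    obtain ⟨N, hN⟩ := (Metric.tendsto_atTop.1 (hspan u hu)) (δ / 2) (by positivity)
    refine ⟨N, fun n hn => ?_⟩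
    have h2 := hN n hn
    rw [dist_zero_right] at h2 ⊢
    rw [dist_eq_norm] at hgu
    have h3 : ‖F n (g - u)‖ ≤ (C + 1) * (δ / 2 / (C + 1)) := by
      refine ((F n).le_opNorm _).trans ?_
      exact mul_le_mul ((hF2 n).trans (by linarith)) hgu.le (norm_nonneg _) (by linarith)
    have h4 : (C + 1) * (δ / 2 / (C + 1)) = δ / 2 := by
      field_simp
    calc ‖F n g‖ = ‖F n (g - u) + F n u‖ := by rw [← map_add, sub_add_cancel]
      _ ≤ ‖F n (g - u)‖ + ‖F n u‖ := norm_add_le _ _
      _ < δ := by linarith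
  -- a countable family spanning `E` modulo `G`, linearly independent modulo `G`
  obtain ⟨b, hb1, hb2, hb3⟩ := exists_linearIndependent 𝕜
    (Set.range fun n => G.mkQ (TopologicalSpace.denseSeq E n))
  have hbc : b.Countable := (Set.countable_range _).mono hb1
  have hcount : Countable b := hbc.to_subtype
  obtain ⟨e, he⟩ := Countable.exists_injective_nat b
  have hz : ∀ i : b, ∃ z : E, G.mkQ z = i := fun i => G.mkQ_surjective i
  choose z hzb using hz
  have hzli : LinearIndependent 𝕜 (fun i => G.mkQ (z i)) := by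
    have h2 : (fun i => G.mkQ (z i)) = ((↑) : b → E ⧸ G) := funext hzb
    rw [h2]
    exact hb3
  have hfin : ∀ N : ℕ, {i : b | e i < N}.Finite := fun N =>
    Set.Finite.preimage he.injOn (Set.finite_lt_nat N)
  let s : ℕ → Finset b := fun N => (hfin N).toFinset
  have hs : ∀ N i, i ∈ s N ↔ e i < N := by
    intro N i
    simp [s]
  let P : ℕ → ℕ → Prop := fun n N => ∃ h : StrongDual 𝕜 E, (∀ g ∈ G, h g = 0) ∧
    ‖h‖ ≤ C + ε ∧ ∀ i ∈ s N, h (z i) = F n (z i)
  have hP : ∀ N, ∀ᶠ n in atTop, P n N := fun N =>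
    exact_approx G hGc F C hF2 hF0 z hzli (s N) ε hε
  have hC0 : 0 ≤ C := (norm_nonneg _).trans (hC 0)
  have hP0 : ∀ n, P n 0 := by
    intro n
    refine ⟨0, fun g _ => rfl, by rw [norm_zero]; positivity, ?_⟩
    intro i hi
    rw [hs] at hi
    omega
  have hex : ∀ n, P n (Nat.findGreatest (P n) n) := fun n =>
    Nat.findGreatest_spec (P := P n) (Nat.zero_le n) (hP0 n)
  choose h hh1 hh2 hh3 using hex
  have hev : ∀ i : b, ∃ M : ℕ, ∀ n, M ≤ n → F n (z i) - h n (z i) = 0 := by
    intro i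
    obtain ⟨M, hM⟩ := eventually_atTop.1 ((hP (e i + 1)).and (eventually_ge_atTop (e i + 1)))
    refine ⟨M, fun n hn => ?_⟩
    obtain ⟨h2, h3⟩ := hM n hn
    have h4 : e i + 1 ≤ Nat.findGreatest (P n) n := Nat.le_findGreatest h3 h2
    rw [hh3 n i ((hs _ _).2 (by omega)), sub_self]
  refine ⟨fun n => F n - h n, ?_, ?_, ?_⟩
  · intro n v
    rw [sub_apply, hh1 n v v.2, sub_zero, hF1]
  · intro n
    have h2 := norm_sub_le (F n) (h n)
    have h3 := hF2 n
    have h4 := hh2 n
    linarith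
  · let Y : Submodule 𝕜 E := ⨅ n, LinearMap.ker (F n - h n).toLinearMap
    have hY : ∀ y, y ∈ Y ↔ ∀ n, (F n - h n) y = 0 := by
      intro y
      simp [Y, Submodule.mem_iInf]
    have hzS : ∀ i : b, z i ∈ G ⊔ Y := by
      intro i
      obtain ⟨M, hM⟩ := hev i
      let g : E := ∑ n ∈ Finset.range M, (F n - h n) (z i) • x n
      have hg : g ∈ G := G.sum_mem fun n _ => G.smul_mem _ (hxG n)
      have hy : z i - g ∈ Y := by
        rw [hY]
        intro m
        rw [map_sub]
        have h2 : (F m - h m) g = (F m - h m) (z i) := by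
          simp only [g, map_sum, map_smul]
          have h3 : ∀ n, (F m - h m) (x n) = if m = n then 1 else 0 := by
            intro n
            rw [sub_apply, hh1 m _ (hxG n), sub_zero, hFx]
          simp only [h3, smul_eq_mul, mul_ite, mul_one, mul_zero]
          rw [Finset.sum_ite_eq]
          by_cases hm : m < M
          · rw [if_pos (Finset.mem_range.2 hm)]
          · rw [if_neg (by rw [Finset.mem_range]; exact hm)]
            rw [sub_apply]
            exact (hM m (not_lt.1 hm)).symm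
        rw [h2, sub_self]
      have h5 : z i = g + (z i - g) := by abel
      rw [h5]
      exact Submodule.add_mem_sup hg hy
    have hdS : ∀ n, TopologicalSpace.denseSeq E n ∈ G ⊔ Y := by
      intro n
      have h2 : G.mkQ (TopologicalSpace.denseSeq E n) ∈ Submodule.span 𝕜 b := by
        rw [hb2]
        exact Submodule.subset_span ⟨n, rfl⟩
      have h3 : Submodule.span 𝕜 b ≤ Submodule.map G.mkQ (G ⊔ Y) := by
        rw [Submodule.span_le]
        intro v hv
        exact ⟨z ⟨v, hv⟩, hzS _, hzb _⟩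
      obtain ⟨u, hu, hu2⟩ := h3 h2
      have h4 : TopologicalSpace.denseSeq E n - u ∈ G := by
        rw [← Submodule.Quotient.mk_eq_zero G]
        have h5 : G.mkQ (TopologicalSpace.denseSeq E n - u) = 0 := by
          rw [map_sub, hu2, sub_self]
        exact h5
      have h6 : TopologicalSpace.denseSeq E n = (TopologicalSpace.denseSeq E n - u) + u := by abel
      rw [h6]
      exact (G ⊔ Y).add_mem (Submodule.mem_sup_left h4) hu
    have hset : ((G ⊔ Y : Submodule 𝕜 E) : Set E) ⊆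
        {v : E | ∃ g ∈ G, ∃ y : E, (∀ n, (F n - h n) y = 0) ∧ v = g + y} := by
      intro v hv
      obtain ⟨g, hg, y, hy, rfl⟩ := Submodule.mem_sup.1 hv
      exact ⟨g, hg, y, (hY y).1 hy, rfl⟩
    refine Dense.mono hset ?_
    refine Dense.mono ?_ (TopologicalSpace.denseRange_denseSeq E)
    rintro _ ⟨n, rfl⟩
    exact hdS n

/-- **Theorem.** Let `x n` be a sequence in a separable Banach space `E` and `φ n` bounded
functionals on its closed linear span `[x n]` with `φ i (x j) = δ_ij` and `‖φ n‖ ≤ C` (so `x` is a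
minimal sequence and the `φ n` are its associated functionals).  Then for every `ε > 0` the `φ n`
extend to functionals `f n` on `E` with `‖f n‖ ≤ 2 C + ε` such that the sum of `[x n]` and the
common kernel of the `f n` is dense in `E`. -/
theorem result (𝕜 : Type) [RCLike 𝕜] (E : Type) [NormedAddCommGroup E] [NormedSpace 𝕜 E]
    [CompleteSpace E] [TopologicalSpace.SeparableSpace E] (x : ℕ → E)
    (φ : ℕ → StrongDual 𝕜 (Submodule.span 𝕜 (Set.range x)).topologicalClosure)
    (hφ : ∀ (i j : ℕ) (v : (Submodule.span 𝕜 (Set.range x)).topologicalClosure),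
      (v : E) = x j → φ i v = if i = j then 1 else 0)
    (C : ℝ) (hC : ∀ n, ‖φ n‖ ≤ C) (ε : ℝ) (hε : 0 < ε) :
    ∃ f : ℕ → StrongDual 𝕜 E,
      (∀ (n : ℕ) (v : (Submodule.span 𝕜 (Set.range x)).topologicalClosure),
        f n (v : E) = φ n v) ∧
      (∀ n, ‖f n‖ ≤ 2 * C + ε) ∧
      Dense {v : E | ∃ g ∈ (Submodule.span 𝕜 (Set.range x)).topologicalClosure, ∃ y : E,
        (∀ n, f n y = 0) ∧ v = g + y} :=
  main x _ rfl φ hφ C hC ε hε

end Pool.Agent.Results.MP_b3b95b_an.BoundedExtensionsDenseSum
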